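import Mathlib
import Pool.Agent.H39.TO.Targets

/-!
# Two-orbit polyhedra in hyperbolic 3-space: the classification of the reflection groups (row CLA)
-/

namespace Pool.Agent.H39.TOH.CLA

open Pool.Agent.H57.CP Pool.Agent.H39.TO

theorem cos_pos' (p : ℕ) (hp : 3 ≤ p) : 0 < Real.cos (Real.pi / p) := by
  apply Real.cos_pos_of_mem_Ioo
  have h3 : (3 : ℝ) ≤ p := by exact_mod_cast hp
  have hpi := Real.pi_pos
  constructor
  · have : 0 < Real.pi / p := by positivity
    linarith
  · rw [div_lt_div_iff₀ (by linarith) (by norm_num)]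
    nlinarith

theorem sin_pos' (p : ℕ) (hp : 3 ≤ p) : 0 < Real.sin (Real.pi / p) := by
  have h3 : (3 : ℝ) ≤ p := by exact_mod_cast hp
  have hpi := Real.pi_pos
  apply Real.sin_pos_of_pos_of_lt_pi
  · positivity
  · rw [div_lt_iff₀ (by linarith)]
    nlinarith

theorem c2_eq (p : ℕ) : c2 p = 2 * Real.cos (Real.pi / p) ^ 2 - 1 := by
  unfold c2
  rw [show 2 * Real.pi / p = 2 * (Real.pi / p) by ring, Real.cos_two_mul]

theorem c2_eq' (p : ℕ) : c2 p = 1 - 2 * Real.sin (Real.pi / p) ^ 2 := by
  rw [c2_eq]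
  have := Real.sin_sq_add_cos_sq (Real.pi / p)
  linarith

/-- orders from the square -/
theorem ord_eq (hO : T_ORR) {x y : V4} {n N : ℕ} (k : ℕ) (hx : mk x x = -1) (hy : mk y y = -1) (hN : 2 ≤ N)
    (hk : Nat.Coprime k N) (h : (mk x y) ^ 2 = (Real.cos (k * Real.pi / N)) ^ 2)
    (hn : ∀ m : ℕ, (refl x * refl y) ^ m = 1 ↔ n ∣ m) : n = N := by
  have h1 := hO x y k N hx hy hN hk h
  have e : ∀ m : ℕ, n ∣ m ↔ N ∣ m := fun m => (hn m).symm.trans (h1 m)
  exact Nat.dvd_antisymm ((e N).mpr dvd_rfl) ((e n).mp dvd_rfl)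

/-- the third cosine -/
theorem cos_third : (Real.cos ((1 : ℕ) * Real.pi / (3 : ℕ))) ^ 2 = 1 / 4 := by
  have : ((1 : ℕ) * Real.pi / (3 : ℕ) : ℝ) = Real.pi / 3 := by norm_num
  rw [this, Real.cos_pi_div_three]
  norm_num

theorem cos_half : (Real.cos ((1 : ℕ) * Real.pi / (2 : ℕ))) ^ 2 = 0 := by
  have : ((1 : ℕ) * Real.pi / (2 : ℕ) : ℝ) = Real.pi / 2 := by norm_num
  rw [this, Real.cos_pi_div_two]
  norm_num

/-- the conclusion from the value of `f` -/
theorem fin_n (hO : T_ORR) {n0 n1 n2 : V4} {v : H3} {p n : ℕ} (hp : 3 ≤ p) (h : RefD p n v n0 n1 n2) {f : ℝ}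
    (hf : (mk n1 n2) ^ 2 = f ^ 2) :
    (f = 0 → n = 2) ∧ (f ^ 2 = 1 / 4 → n = 3) ∧ (f = Real.cos (Real.pi / p) → n = p) := by
  refine ⟨fun h0 => ?_, fun h1 => ?_, fun h2 => ?_⟩
  · exact ord_eq hO 1 h.u1 h.u2 (by norm_num) (by norm_num) (by rw [hf, h0, cos_half]; norm_num) h.o3
  · exact ord_eq hO 1 h.u1 h.u2 (by norm_num) (by norm_num) (by rw [hf, h1, cos_third]) h.o3
  · refine ord_eq hO 1 h.u1 h.u2 (by omega) (by simp) ?_ h.o3
    rw [hf, h2]
    norm_num

theorem pf (hR : T_RTR) (hA : T_ANG) (hO : T_ORR) (hE : T_EUC) (hS : T_SPH) (hH : T_HYP) (hK : T_KKA) (hV : T_FVL)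
    (hF : T_FSY) (h9 : T_TAA) (h7 : T_TAB) (h5 : T_TAC) : T_CLA := by
  intro p n v n0 n1 n2 hodd hp3 h
  obtain ⟨t, t', k, k', hT, hC0, k0, kp, k0', kp', hk, hk', hkk, hkp, hf⟩ := hR p n v n0 n1 n2 hp3 h
  have fin := fin_n hO hp3 h hf
  have p5 : 5 ≤ p := by
    rcases Nat.lt_or_ge p 5 with h | h
    · exfalso
      obtain ⟨j, hj⟩ := hodd
      have : p = 3 := by omega
      omega
    · exact h
  -- `|mk n1 n2| < 1`
  have hlin : LinearIndependent ℝ ![n1, n2] := by
    have h1 := h.li.comp (fun i : Fin 2 => (i.succ : Fin 3)) (Fin.succ_injective _)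
    have h2 : (![n0, n1, n2] ∘ fun i : Fin 2 => (i.succ : Fin 3)) = ![n1, n2] := by
      funext i
      fin_cases i <;> rfl
    rwa [h2] at h1
  obtain ⟨j, j0, jn, hjn, hj⟩ := hA n1 n2 n h.u1 h.u2 h.nn hlin h.o3
  have hlt : (mk n1 n2) ^ 2 < 1 := by
    rw [hj]
    have hn : (0 : ℝ) < n := by exact_mod_cast (by omega : 0 < n)
    have hs : 0 < Real.sin (j * Real.pi / n) := by
      apply Real.sin_pos_of_pos_of_lt_pi
      · have : (0 : ℝ) < j := by exact_mod_cast j0
        have := Real.pi_pos
        positivity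
      · rw [div_lt_iff₀ hn]
        have : (j : ℝ) < n := by exact_mod_cast jn
        have := Real.pi_pos
        nlinarith
    have := Real.sin_sq_add_cos_sq (j * Real.pi / n)
    nlinarith
  have hf1 : (fk p (CC p t t') k k') ^ 2 < 1 := by rw [← hf]; exact hlt
  have hf1' : fk p (CC p t t') k k' < 1 := by nlinarith [hf1, sq_nonneg (fk p (CC p t t') k k' - 1)]
  refine ⟨p5, ?_⟩
  rcases lt_trichotomy (CC p t t') 1 with hc | hc | hc
  · obtain ⟨rfl, hc5⟩ := hS p n0 t t' hodd p5 hT hC0 hc
    rcases h5.2.2 (CC 5 t t') k k' hC0 hc5 k0 kp k0' kp' hkk hkp with h0 | h0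
    · left
      exact fin.1 (by nlinarith [h0] )
    · right; right
      exact ⟨fin.2.1 h0, by norm_num⟩
  · exact absurd hc (hE p n0 t t' hodd p5 hT)
  · -- the hyperbolic case
    obtain ⟨H7, H5⟩ := hH p n0 t t' hT hc
    have hcos := cos_pos' p hp3
    have hsin := sin_pos' p hp3
    have hc2 := c2_eq p
    have hc2' := c2_eq' p
    have hCs : CC p t t' * Real.sin (Real.pi / p) ^ 2 = mk t t' + Real.cos (Real.pi / p) ^ 2 := by
      unfold CC
      exact div_mul_cancel₀ _ (by positivity)
    have hτ : mk t t' = CC p t t' * Real.sin (Real.pi / p) ^ 2 - Real.cos (Real.pi / p) ^ 2 := by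
      rw [hCs]; ring
    have hCC : (1 - c2 p) * CC p t t' = 2 * mk t t' + 1 + c2 p := by
      have : (1 - c2 p) * CC p t t' = 2 * (CC p t t' * Real.sin (Real.pi / p) ^ 2) := by rw [hc2']; ring
      rw [this, hCs, hc2]; ring
    obtain ⟨v2, v3, v4⟩ := hV p (CC p t t') (mk t t') hp3 hτ
    have core : ∀ a b : ℕ, 0 < a → 0 < b → a < b → a + b < p → Nat.Coprime b p →
        fk p (CC p t t') a b < 1 → (mk n1 n2) ^ 2 = (fk p (CC p t t') a b) ^ 2 →
        n = 2 ∨ n = p ∨ (n = 3 ∧ ¬ 3 ∣ p) := by
      intro a b ha hb hab hs hbp hlt1 hsq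
      have fin := fin_n hO hp3 h hsq
      rcases (show p = 5 ∨ 7 ≤ p by obtain ⟨j, hj⟩ := hodd; omega) with rfl | hp7
      · obtain ⟨t0, tJ⟩ := H5 rfl
        obtain ⟨rfl, rfl⟩ := h5.2.1 (CC 5 t t') a b (by rw [hCC]; linarith) ha hb hs hab hlt1
        rw [v2] at hlt1
        have tz := h5.1 (mk t t') t0 hlt1 tJ
        right; left
        apply fin.2.2
        rw [v2, tz]
        ring
      · obtain ⟨t0, J3, J4⟩ := H7 hp7
        have hch : 1 / 2 ≤ c2 p := by
          unfold c2
          rw [← Real.cos_pi_div_three]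
          have h7 : (7 : ℝ) ≤ p := by exact_mod_cast hp7
          have hpi := Real.pi_pos
          apply Real.cos_le_cos_of_nonneg_of_le_pi
          · positivity
          · linarith
          · rw [div_le_div_iff₀ (by linarith) (by norm_num)]
            nlinarith
        have hcos1 : Real.cos (Real.pi / p) ≤ 1 := Real.cos_le_one _
        have hcosh : 4 / 5 ≤ Real.cos (Real.pi / p) := by nlinarith
        have hJ4 : mk t t' = 0 ∨ 2 * c2 p - 1 ≤ 16 * (mk t t') ^ 2 * (1 + mk t t') * (c2 p + mk t t') := by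
          rcases J4 with J | J | J
          · exact Or.inl J
          · exfalso; linarith
          · exact Or.inr J
        obtain ⟨rfl, hb3⟩ := hK p a b (CC p t t') hodd hp7 ha hb hs hab (by rw [hCC]; linarith) hlt1
        have hneg : b = 3 ∨ b = 4 → mk t t' < 0 := by
          rintro (rfl | rfl)
          · rw [v3] at hlt1
            by_contra hcon
            push Not at hcon
            nlinarith [mul_nonneg hcon (by linarith : (0 : ℝ) ≤ 1 + 2 * c2 p)]
          · rw [v4] at hlt1
            by_contra hcon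
            push Not at hcon
            have e1 : 2 ≤ 4 * c2 p * mk t t' + 2 * c2 p + 1 := by
              nlinarith [mul_nonneg (by linarith : (0 : ℝ) ≤ c2 p) hcon]
            nlinarith
        have hL : Real.cos (Real.pi / p) * (2 * mk t t' + 1) < 1 := by
          rcases hb3 with rfl | hb3
          · rw [v2] at hlt1; exact hlt1
          · have e1 := hneg hb3
            have e2 : 0 ≤ 2 * mk t t' + 1 := by linarith
            nlinarith
        -- the possible values
        have key : mk t t' = -1 / 2 ∨ mk t t' = 0 ∨ (p = 7 ∧ Real.cos (Real.pi / p) * (2 * mk t t' + 1) = 1 / 2 ∧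
            1 < mk t t' * (1 + 2 * c2 p) + 1 + c2 p ∧
            1 < Real.cos (Real.pi / p) * (4 * c2 p * mk t t' + 2 * c2 p + 1)) := by
          rcases (show p = 7 ∨ 9 ≤ p by obtain ⟨j, hj⟩ := hodd; omega) with h77 | hp9
          · subst h77
            rcases h7 (mk t t') t0 (by exact_mod_cast hL) J3 hJ4 with q | q | ⟨q1, q2, q3⟩
            · exact Or.inl q
            · exact Or.inr (Or.inl q)
            · exact Or.inr (Or.inr ⟨rfl, by exact_mod_cast q1, q2, by exact_mod_cast q3⟩)
          · rcases h9 p (mk t t') hp9 t0 hL J3 hJ4 with q | q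
            · exact Or.inl q
            · exact Or.inr (Or.inl q)
        rcases hb3 with rfl | rfl | rfl
        · rcases key with q | q | ⟨q0, q1, _⟩
          · left
            apply fin.1
            rw [v2, q]; ring
          · right; left
            apply fin.2.2
            rw [v2, q]; ring
          · right; right
            refine ⟨fin.2.1 ?_, by rw [q0]; norm_num⟩
            rw [v2, q1]; norm_num
        · rcases key with q | q | ⟨_, _, q2, _⟩
          · right; right
            refine ⟨fin.2.1 ?_, ?_⟩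
            · rw [v3, q]; ring
            · intro hd
              have := Nat.Coprime.eq_one_of_dvd hbp hd
              omega
          · exfalso
            rw [v3, q] at hlt1
            linarith
          · exfalso
            rw [v3] at hlt1
            linarith
        · rcases key with q | q | ⟨_, _, _, q3⟩
          · right; left
            apply fin.2.2
            rw [v4, q]; ring
          · exfalso
            have := hneg (Or.inr rfl)
            linarith
          · exfalso
            rw [v4] at hlt1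
            linarith
    have red : ∀ a b : ℕ, 0 < a → 0 < b → a ≠ b → a + b < p → Nat.Coprime a p → Nat.Coprime b p →
        fk p (CC p t t') a b < 1 → (mk n1 n2) ^ 2 = (fk p (CC p t t') a b) ^ 2 →
        n = 2 ∨ n = p ∨ (n = 3 ∧ ¬ 3 ∣ p) := by
      intro a b ha hb hab hs hap hbp hlt1 hsq
      rcases lt_or_gt_of_ne hab with hl | hl
      · exact core a b ha hb hl hs hbp hlt1 hsq
      · have e := (hF p a b (CC p t t') (by omega) (by omega) (by omega)).1
        exact core b a hb ha hl (by omega) hap (by rw [← e]; exact hlt1) (by rw [← e]; exact hsq)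
    rcases lt_or_gt_of_ne hkp with hl | hl
    · exact red k k' k0 k0' hkk hl hk hk' hf1' hf
    · have e := (hF p k k' (CC p t t') (by omega) (by omega) (by omega)).2.1
      refine red (p - k) (p - k') (by omega) (by omega) (by omega) (by omega) ?_ ?_ (by rw [e]; exact hf1')
        (by rw [e]; exact hf)
      · exact (Nat.coprime_self_sub_left (by omega)).mpr hk
      · exact (Nat.coprime_self_sub_left (by omega)).mpr hk'

end Pool.Agent.H39.TOH.CLA
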