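import Pool.Agent.H39.TO.Targets

/-! `T_DHG`: the coefficients of the images of a root under a dihedral group. -/

namespace Pool.Agent.H39.TOH.DHG

open Pool.Agent.H57.CP Pool.Agent.H39.TO

theorem refl_self (a : V4) (ha : mk a a = -1) : Pool.Agent.H57.CP.refl a a = -a := by
  ext i
  show a i + 2 * mk a a * a i = -a i
  rw [ha]; ring

theorem refl_other (a b : V4) : Pool.Agent.H57.CP.refl a b = b + (2 * mk a b) • a := by
  ext i
  show b i + 2 * mk a b * a i = b i + 2 * mk a b * a i
  rfl

theorem mk_comm (a b : V4) : mk a b = mk b a := by simp only [mk]; ring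

theorem inv (α β : V4) (ha : mk α α = -1) (hb : mk β β = -1) (hc : 1 ≤ mk α β) (k : ℕ) :
    ∃ p q : ℝ, 0 ≤ q ∧ q ≤ p ∧ (alt (M := Module.End ℝ V4) (refl α) (refl β) k) α =
      if Even k then p • α + q • β else q • α + p • β := by
  induction k with
  | zero => exact ⟨1, 0, le_refl _, zero_le_one, by simp [alt]⟩
  | succ k ih =>
    obtain ⟨p, q, h0, h1, h2⟩ := ih
    refine ⟨2 * mk α β * p - q, p, h0.trans h1, by nlinarith, ?_⟩
    simp only [alt]
    rw [Module.End.mul_apply, h2]
    by_cases hk : Even k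
    · have hk' : ¬ Even (k + 1) := by rw [Nat.even_add_one]; exact not_not.mpr hk
      rw [if_pos hk, if_pos hk, if_neg hk', map_add, map_smul, map_smul, refl_self β hb, refl_other β α,
        mk_comm β α]
      module
    · have hk' : Even (k + 1) := by rw [Nat.even_add_one]; exact hk
      rw [if_neg hk, if_neg hk, if_pos hk', map_add, map_smul, map_smul, refl_self α ha, refl_other α β]
      module

theorem pf (hDIH : T_DIH) : T_DHG := by
  intro α β m k ha hb h
  rcases h with ⟨hm, hc, hk⟩ | hc
  · have hpi := Real.pi_pos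
    have hm0 : (0 : ℝ) < m := by positivity
    have hs : ∀ j : ℕ, j ≤ m → 0 ≤ Real.sin (j * Real.pi / m) := by
      intro j hj
      apply Real.sin_nonneg_of_nonneg_of_le_pi
      · positivity
      · rw [div_le_iff₀ hm0]
        have : (j : ℝ) ≤ m := by exact_mod_cast hj
        nlinarith
    have h1 : 0 ≤ Real.sin (Real.pi / m) := by have := hs 1 (by omega); simpa using this
    refine ⟨_, _, ?_, ?_, hDIH α β m hm ha hb hc k⟩
    · exact div_nonneg (hs _ (by split_ifs <;> omega)) h1
    · exact div_nonneg (hs _ (by split_ifs <;> omega)) h1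
  · obtain ⟨p, q, h0, h1, h2⟩ := inv α β ha hb hc k
    by_cases hk : Even k
    · exact ⟨p, q, h0.trans h1, h0, by rw [h2, if_pos hk]⟩
    · exact ⟨q, p, h0, h0.trans h1, by rw [h2, if_neg hk]⟩

end Pool.Agent.H39.TOH.DHG
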