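import Pool.Agent.H39.TOH.DHG

/-! `T_DII`: two reflections with entry `0` generate an infinite dihedral group. -/

namespace Pool.Agent.H39.TOH.DII

open Pool.Agent.H57.CP Pool.Agent.H39.TO Pool.Agent.H39.TOH.DHG

theorem inv2 (α β : V4) (ha : mk α α = -1) (hb : mk β β = -1) (hc : 1 ≤ mk α β) (m : ℕ) :
    ∃ p q : ℝ, 0 ≤ q ∧ q < p ∧ 1 ≤ p ∧ (m ≠ 0 → 1 < p) ∧
      (((Pool.Agent.H57.CP.refl α : Module.End ℝ V4) * (Pool.Agent.H57.CP.refl β : Module.End ℝ V4)) ^ m) α =
        p • α + q • β := by
  induction m with
  | zero => exact ⟨1, 0, le_refl _, zero_lt_one, le_refl _, by simp, by simp⟩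
  | succ m ih =>
    obtain ⟨p, q, h0, h1, h2, h3, h4⟩ := ih
    have hq' : p < 2 * mk α β * p - q := by nlinarith
    have hp' : 2 * mk α β * p - q < 2 * mk α β * (2 * mk α β * p - q) - p := by nlinarith
    refine ⟨2 * mk α β * (2 * mk α β * p - q) - p, 2 * mk α β * p - q, by linarith, hp', by linarith,
      fun _ => by linarith, ?_⟩
    rw [pow_succ', Module.End.mul_apply, h4, Module.End.mul_apply, map_add, map_smul, map_smul,
      refl_self β hb, refl_other β α, mk_comm β α]
    simp only [map_add, map_smul, map_neg, refl_self α ha, refl_other α β]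
    module

theorem pf : T_DII := by
  intro M al σ hN hS i j hij h0 m
  constructor
  · intro hm
    by_contra hne
    obtain ⟨p, q, _, _, _, h3, h4⟩ := inv2 (al i) (al j) (hN.unit i) (hN.unit j) (hN.inf i j hij h0) m
    have h5 : σ ((ss M i * ss M j) ^ m) = 1 := by rw [hm, map_one]
    rw [map_pow, map_mul, hS i, hS j] at h5
    rw [h5] at h4
    have h6 : al i = p • al i + q • al j := h4
    have hp := h3 hne
    have inj : Function.Injective ![i, j] := by
      intro a b hab
      match a, b with
      | 0, 0 => rfl
      | 0, 1 => exact absurd hab hij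
      | 1, 0 => exact absurd hab hij.symm
      | 1, 1 => rfl
    have heq : al ∘ ![i, j] = ![al i, al j] := by
      funext k
      match k with
      | 0 => rfl
      | 1 => rfl
    have hli0 := hN.li.comp ![i, j] inj
    rw [heq] at hli0
    have hli := LinearIndependent.pair_iff.mp hli0
    have h7 := hli (p - 1) q (by
      show (p - 1) • al i + q • al j = 0
      have : (p - 1) • al i + q • al j = (p • al i + q • al j) - al i := by module
      rw [this, ← h6, sub_self])
    linarith [h7.1]
  · rintro rfl; exact pow_zero _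

end Pool.Agent.H39.TOH.DII
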