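import Pool.Agent.H39.TO.Targets

/-! `T_OPP`: points on different sides of a plane. -/

namespace Pool.Agent.H39.TOH.OPP

open Pool.Agent.H57.CP Pool.Agent.H39.TO

/-- a vector orthogonal to a point is space-like -/
theorem orth (x w : Fin 4 → ℝ) (hx : x 3 * x 3 - x 0 * x 0 - x 1 * x 1 - x 2 * x 2 = 1)
    (h : x 3 * w 3 - x 0 * w 0 - x 1 * w 1 - x 2 * w 2 = 0) :
    w 3 * w 3 - w 0 * w 0 - w 1 * w 1 - w 2 * w 2 ≤ 0 := by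
  have h1 : (x 3 * w 3) ^ 2 ≤ (x 0 ^ 2 + x 1 ^ 2 + x 2 ^ 2) * (w 0 ^ 2 + w 1 ^ 2 + w 2 ^ 2) := by
    have : x 3 * w 3 = x 0 * w 0 + x 1 * w 1 + x 2 * w 2 := by linarith
    rw [this]
    nlinarith [sq_nonneg (x 0 * w 1 - x 1 * w 0), sq_nonneg (x 0 * w 2 - x 2 * w 0),
      sq_nonneg (x 1 * w 2 - x 2 * w 1)]
  have h2 : 0 < x 3 ^ 2 := by nlinarith [sq_nonneg (x 0), sq_nonneg (x 1), sq_nonneg (x 2)]
  have h3 : x 3 ^ 2 * w 3 ^ 2 ≤ x 3 ^ 2 * (w 0 ^ 2 + w 1 ^ 2 + w 2 ^ 2) := by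
    have : x 0 ^ 2 + x 1 ^ 2 + x 2 ^ 2 ≤ x 3 ^ 2 := by nlinarith
    have h4 : (x 0 ^ 2 + x 1 ^ 2 + x 2 ^ 2) * (w 0 ^ 2 + w 1 ^ 2 + w 2 ^ 2) ≤
        x 3 ^ 2 * (w 0 ^ 2 + w 1 ^ 2 + w 2 ^ 2) := mul_le_mul_of_nonneg_right this (by positivity)
    nlinarith
  have h5 := le_of_mul_le_mul_left h3 h2
  nlinarith

theorem gram (x y n : Fin 4 → ℝ) (hx : x 3 * x 3 - x 0 * x 0 - x 1 * x 1 - x 2 * x 2 = 1) :
    0 ≤ mk x x * (mk y y * mk n n - mk y n * mk y n) - mk x y * (mk x y * mk n n - mk y n * mk x n) +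
      mk x n * (mk x y * mk y n - mk y y * mk x n) := by
  have key := orth x (fun i => match i with
    | 0 => x 3 * (y 1 * n 2 - y 2 * n 1) - x 1 * (y 3 * n 2 - y 2 * n 3) + x 2 * (y 3 * n 1 - y 1 * n 3)
    | 1 => -(x 3 * (y 0 * n 2 - y 2 * n 0) - x 0 * (y 3 * n 2 - y 2 * n 3) + x 2 * (y 3 * n 0 - y 0 * n 3))
    | 2 => x 3 * (y 0 * n 1 - y 1 * n 0) - x 0 * (y 3 * n 1 - y 1 * n 3) + x 1 * (y 3 * n 0 - y 0 * n 3)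
    | 3 => x 0 * (y 1 * n 2 - y 2 * n 1) - x 1 * (y 0 * n 2 - y 2 * n 0) + x 2 * (y 0 * n 1 - y 1 * n 0))
    hx (by simp only []; ring)
  simp only [] at key
  simp only [mk]
  nlinarith [key]

theorem pf : T_OPP := by
  intro x y n hn hx hy
  have hxx : mk x.1 x.1 = 1 := x.2.1
  have hyy : mk y.1 y.1 = 1 := y.2.1
  have h := gram x.1 y.1 n hxx
  rw [hxx, hyy, hn] at h
  have hc : 0 < mk x.1 y.1 := by
    have h1 : x.1 0 ^ 2 + x.1 1 ^ 2 + x.1 2 ^ 2 < x.1 3 ^ 2 := by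
      have := hxx; simp only [mk] at this; nlinarith
    have h2 : y.1 0 ^ 2 + y.1 1 ^ 2 + y.1 2 ^ 2 < y.1 3 ^ 2 := by
      have := hyy; simp only [mk] at this; nlinarith
    have h3 : (x.1 0 * y.1 0 + x.1 1 * y.1 1 + x.1 2 * y.1 2) ^ 2 < (x.1 3 * y.1 3) ^ 2 := by
      have h4 : (x.1 0 * y.1 0 + x.1 1 * y.1 1 + x.1 2 * y.1 2) ^ 2 ≤
          (x.1 0 ^ 2 + x.1 1 ^ 2 + x.1 2 ^ 2) * (y.1 0 ^ 2 + y.1 1 ^ 2 + y.1 2 ^ 2) := by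
        nlinarith [sq_nonneg (x.1 0 * y.1 1 - x.1 1 * y.1 0), sq_nonneg (x.1 0 * y.1 2 - x.1 2 * y.1 0),
          sq_nonneg (x.1 1 * y.1 2 - x.1 2 * y.1 1)]
      have h5 : (x.1 0 ^ 2 + x.1 1 ^ 2 + x.1 2 ^ 2) * (y.1 0 ^ 2 + y.1 1 ^ 2 + y.1 2 ^ 2) <
          x.1 3 ^ 2 * y.1 3 ^ 2 := mul_lt_mul'' h1 h2 (by positivity) (by positivity)
      nlinarith
    have h6 := (abs_lt_of_sq_lt_sq' h3 (mul_pos x.2.2 y.2.2).le).2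
    simp only [mk]
    linarith
  have h7 : mk x.1 y.1 * (mk x.1 n * mk y.1 n) ≤ 0 :=
    mul_nonpos_of_nonneg_of_nonpos hc.le (mul_nonpos_of_nonpos_of_nonneg hx hy)
  simp only [ch]
  nlinarith [sq_nonneg (mk y.1 n)]

end Pool.Agent.H39.TOH.OPP
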