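import Mathlib
import Pool.Agent.H39.TO.Targets

/-!
# Two-orbit polyhedra in hyperbolic 3-space: all generators are reflections (row RFM)
-/

namespace Pool.Agent.H39.TOH.RFM

open Pool.Agent.H57.CP Pool.Agent.H39.TO

theorem mk_sub (x y z : V4) : mk x (y - z) = mk x y - mk x z := by
  simp only [mk, Pi.sub_apply]; ring

theorem refl_apply (n x : V4) : refl n x = x + (2 * mk n x) • n := by
  funext i
  show x i + 2 * mk n x * n i = x i + (2 * mk n x) * n i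
  ring

theorem sy_inv {K : Geo} {g : Equiv.Perm H3} (h : Sy K g) : ∀ x ∈ K.V, g⁻¹ x ∈ K.V := by
  intro x hx
  have := (h.v (g⁻¹ x)).mp
  rw [← h.v (g⁻¹ x)]
  simpa using hx

theorem conj_refl (hE : T_EXT) {K : Geo} {a g : Equiv.Perm H3} {n : V4} (hg : Sy K g) (hn : mk n n = -1)
    (hs : n ∈ Submodule.span ℝ (Subtype.val '' K.V : Set V4)) (ha : ∀ x ∈ K.V, refl n x.1 = (a x).1)
 :
    ∃ n' : V4, mk n' n' = -1 ∧ n' ∈ Submodule.span ℝ (Subtype.val '' K.V : Set V4) ∧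
      ∀ x ∈ K.V, refl n' x.1 = (g (a (g⁻¹ x))).1 := by
  obtain ⟨A, hA, hAe⟩ := hE g hg.iso
  refine ⟨A n, by rw [hA.1]; exact hn, ?_, ?_⟩
  · have : Submodule.map A (Submodule.span ℝ (Subtype.val '' K.V : Set V4)) ≤
        Submodule.span ℝ (Subtype.val '' K.V : Set V4) := by
      rw [Submodule.map_span, Submodule.span_le]
      rintro y ⟨z, ⟨x, hx, rfl⟩, rfl⟩
      apply Submodule.subset_span
      exact ⟨g x, (hg.v x).mpr hx, (hAe x).symm⟩
    exact this ⟨n, hs, rfl⟩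
  · intro x hx
    have hy : g⁻¹ x ∈ K.V := sy_inv hg x hx
    have e1 : x.1 = A (g⁻¹ x).1 := by rw [hAe]; simp
    have e2 : refl (A n) (A (g⁻¹ x).1) = A (refl n (g⁻¹ x).1) := by
      rw [refl_apply, refl_apply, hA.1, map_add, map_smul]
    rw [← hAe, ← ha _ hy, ← e2, ← e1]

theorem step (hE : T_EXT) {K : Geo} {v v1 : H3} {a b : Equiv.Perm H3} {p : ℕ} {n0 : V4}
    (hSG : ∀ g h, Sy K g → Sy K h → Sy K (g * h)) (h1 : Sy K 1) (sa : Sy K a) (sb : Sy K b)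
    (aa : ∀ x ∈ K.V, a (a x) = x) (bb : ∀ x ∈ K.V, b (b x) = x) (o1 : ∀ x ∈ K.V, ((a * b) ^ p) x = x)
    (hp : Odd p) (hn : mk n0 n0 = -1) (hs : n0 ∈ Submodule.span ℝ (Subtype.val '' K.V : Set V4))
    (ha : ∀ x ∈ K.V, refl n0 x.1 = (a x).1) :
    ∃ n' : V4, mk n' n' = -1 ∧ n' ∈ Submodule.span ℝ (Subtype.val '' K.V : Set V4) ∧
      ∀ x ∈ K.V, refl n' x.1 = (b x).1 := by
  obtain ⟨j, hj⟩ := hp
  have sS : ∀ k : ℕ, Sy K ((a * b) ^ k) := by
    intro k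
    induction k with
    | zero => simpa using h1
    | succ k ih => rw [pow_succ]; exact hSG _ _ ih (hSG _ _ sa sb)
  have aV : ∀ x ∈ K.V, a x ∈ K.V := fun x hx => (sa.v x).mpr hx
  have bV : ∀ x ∈ K.V, b x ∈ K.V := fun x hx => (sb.v x).mpr hx
  obtain ⟨n', m1, m2, m3⟩ := conj_refl hE (sS j) hn hs ha
  refine ⟨n', m1, m2, fun x hx => ?_⟩
  rw [m3 x hx]
  -- `b S x = S⁻¹ b x`
  have q1 : ∀ x ∈ K.V, (a * b) (b ((a * b) x)) = b x := by
    intro x hx
    simp only [Equiv.Perm.mul_apply]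
    rw [bb _ (aV _ (bV _ hx)), aa _ (bV _ hx)]
  have q2 : ∀ k : ℕ, ∀ x ∈ K.V, ((a * b) ^ k) (b (((a * b) ^ k) x)) = b x := by
    intro k
    induction k with
    | zero => intro x _; simp
    | succ k ih =>
      intro x hx
      have e : ((a * b) ^ (k + 1)) (b (((a * b) ^ (k + 1)) x)) =
          ((a * b) ^ k) ((a * b) (b ((a * b) (((a * b) ^ k) x)))) := by
        have c : ∀ y, ((a * b) ^ (k + 1)) y = (a * b) (((a * b) ^ k) y) := by
          intro y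
          rw [pow_succ', Equiv.Perm.mul_apply]
        have c' : ∀ y, ((a * b) ^ (k + 1)) y = ((a * b) ^ k) ((a * b) y) := by
          intro y
          rw [pow_succ, Equiv.Perm.mul_apply]
        rw [c' (b (((a * b) ^ (k + 1)) x)), c x]
      rw [e, q1 _ (((sS k).v x).mpr hx)]
      exact ih x hx
  have hy : ((a * b) ^ j)⁻¹ x ∈ K.V := sy_inv (sS j) x hx
  set y := ((a * b) ^ j)⁻¹ x with hyd
  have hxy : x = ((a * b) ^ j) y := by rw [hyd]; simp
  have e1 : a y = (a * b) (b y) := by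
    simp only [Equiv.Perm.mul_apply]
    rw [bb y hy]
  -- `S^j a y = S^(j+1) b y`, and `b y = S^j b S^j y`
  have e2 : b y = ((a * b) ^ j) (b x) := by rw [hxy]; exact (q2 j y hy).symm
  have e3 : ((a * b) ^ j) (a y) = ((a * b) ^ p) (b x) := by
    rw [e1, e2, ← Equiv.Perm.mul_apply, ← Equiv.Perm.mul_apply]
    congr 1
    rw [← pow_succ, ← pow_add, hj]
    congr 1
    omega
  rw [e3, o1 _ (bV x hx)]

theorem pf (hE : T_EXT) (hG : T_SYG) (hR : T_RFL) : T_RFM := by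
  intro K v v1 f f' a b c p q hK hd hp hp3
  obtain ⟨n0, h0, ⟨r, hr, hn⟩, ha⟩ := hR K v v1 f f' a b c p q hK hd hp hp3
  obtain ⟨g1, g2, _, _, _⟩ := hG K
  have hv : v ∈ K.V := by
    rw [hd.eV]
    exact ⟨1, Subgroup.one_mem _, rfl⟩
  have hv1 : v1 ∈ K.V := by
    rw [hd.eV]
    exact ⟨a, Subgroup.subset_closure (by simp), hd.av.symm⟩
  have hs : n0 ∈ Submodule.span ℝ (Subtype.val '' K.V : Set V4) := by
    rw [hn]
    apply Submodule.smul_mem
    apply Submodule.sub_mem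
    · exact Submodule.subset_span ⟨v, hv, rfl⟩
    · exact Submodule.subset_span ⟨v1, hv1, rfl⟩
  obtain ⟨n1, b1, b2, b3⟩ := step (v := v) (v1 := v1) hE g2 g1 hd.sa hd.sb hd.aa hd.bb hd.o1' hp h0 hs ha
  obtain ⟨n2, c1, c2, c3⟩ := step (v := v) (v1 := v1) hE g2 g1 hd.sa hd.sc hd.aa hd.cc hd.o2' hp h0 hs ha
  refine ⟨n0, n1, n2, h0, b1, c1, ha, b3, c3, ?_⟩
  intro i
  fin_cases i
  · exact hs
  · exact b2
  · exact c2

end Pool.Agent.H39.TOH.RFM
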