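import Pool.Agent.H1.TOH.CHT
import Pool.Agent.H1.TOH.EQV
import Pool.Agent.H1.TOH.INV
import Pool.Agent.H1.TOH.SPB
import Pool.Agent.H10.TOH.BEA
import Pool.Agent.H10.TOH.D0A
import Pool.Agent.H11.TOH.D2A
import Pool.Agent.H11.TOH.LCT
import Pool.Agent.H11.TOH.SGE
import Pool.Agent.H11.TOH.SML
import Pool.Agent.H11.TOH.SPA
import Pool.Agent.H12.TOH.ANG
import Pool.Agent.H12.TOH.ORR
import Pool.Agent.H12.TOH.XAA
import Pool.Agent.H13.TOH.DPT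
import Pool.Agent.H16.TOH.TAA
import Pool.Agent.H16.TOH.TAC
import Pool.Agent.H19.TOH.PSI
import Pool.Agent.H19.TOH.REP
import Pool.Agent.H19.TOH.SIN
import Pool.Agent.H20.TOH.BEB
import Pool.Agent.H20.TOH.RFD
import Pool.Agent.H32.TOH.Cyc
import Pool.Agent.H32.TOH.QFI
import Pool.Agent.H34.TOH.BAL
import Pool.Agent.H34.TOH.PRP
import Pool.Agent.H34.TOH.RTR
import Pool.Agent.H35.TOH.CLS
import Pool.Agent.H35.TOH.PLN
import Pool.Agent.H38.TOH.BEE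
import Pool.Agent.H38.TOH.XBB
import Pool.Agent.H39.TOH.CLA
import Pool.Agent.H39.TOH.DHG
import Pool.Agent.H39.TOH.DII
import Pool.Agent.H39.TOH.OPP
import Pool.Agent.H39.TOH.RFM
import Pool.Agent.H42.TOH.FSY
import Pool.Agent.H42.TOH.LBT
import Pool.Agent.H42.TOH.LET
import Pool.Agent.H42.TOH.OOO
import Pool.Agent.H42.TOH.PAR
import Pool.Agent.H42.TOH.SPV
import Pool.Agent.H48.TOH.HPA
import Pool.Agent.H48.TOH.HSP
import Pool.Agent.H48.TOH.HYP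
import Pool.Agent.H48.TOH.MDH
import Pool.Agent.H49.TOH.XS2
import Pool.Agent.H49.TOH.XS3
import Pool.Agent.H5.TOH.AEA
import Pool.Agent.H5.TOH.AEB
import Pool.Agent.H5.TOH.AEE
import Pool.Agent.H5.TOH.BED
import Pool.Agent.H65.TOH.LII
import Pool.Agent.H67.TOH.DIF
import Pool.Agent.H67.TOH.EUC
import Pool.Agent.H67.TOH.NR
import Pool.Agent.H7.TOH.TAB
import Pool.Agent.H70.TOH.AWS
import Pool.Agent.H70.TOH.BWS
import Pool.Agent.H70.TOH.CHM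
import Pool.Agent.H70.TOH.DSW
import Pool.Agent.H70.TOH.TTS
import Pool.Agent.H79.TOH.BEC
import Pool.Agent.H79.TOH.BEF
import Pool.Agent.H79.TOH.FVL
import Pool.Agent.H79.TOH.NET
import Pool.Agent.H82.TOH.KKA
import Pool.Agent.H82.TOH.XS1
import Pool.Agent.H94.TOH.RFL
import Pool.Agent.H94.TOH.SPH
import Pool.Agent.H39.TO.MainAsm
import Pool.Agent.H57.CP.Final

/-!
# Two-orbit polyhedra in hyperbolic 3-space: assembly of all modules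
-/

namespace Pool.Agent.H39.TOH.Final

open Pool.Agent.H57.CP Pool.Agent.H57.CP.Final Pool.Agent.H39.TO

theorem tOAX : T_OAX := Oax.oax tLOR tMKI tEXT tSPN
theorem tTRV : T_TRV := Pool.Agent.H17.CP2.trv tLOR tMKI

/-! ## the Coxeter groups -/

theorem tDHG : T_DHG := Pool.Agent.H39.TOH.DHG.pf tDIH
theorem tTTS : T_TTS := Pool.Agent.H70.TOH.TTS.pf tDHG
theorem tSGE : T_SGE := Pool.Agent.H11.TOH.pf_SGE tTTS tLOR
theorem tCHM : T_CHM := Pool.Agent.H70.TOH.CHM.pf tSGE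
theorem tCHT : T_CHT := Pool.Agent.H1.TOH.pf_CHT tSGE
theorem tORR : T_ORR := Pool.Agent.H12.TOH.pf_ORR
theorem tDIF : T_DIF := Pool.Agent.H67.TOH.pf_DIF tSGE tORR
theorem tDSW : T_DSW := Pool.Agent.H70.TOH.DSW.pf tCHM tDIF tSGE Pool.Agent.H39.TOH.OPP.pf tCTR
theorem tREP : T_REP := Pool.Agent.H19.TOH.pf_REP M86.brd tLOR
theorem tPSI : T_PSI := Pool.Agent.H19.TOH.pf_PSI tSGE tMKI tSPN
theorem tAWS : T_AWS := Pool.Agent.H70.TOH.AWS.pf tSGE tCHM Pool.Agent.H65.TOH.pf_LII tDSW tDIF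
theorem tBWS : T_BWS := Pool.Agent.H70.TOH.BWS.pf tSGE tCHM Pool.Agent.H65.TOH.pf_LII tDSW

/-! ## existence -/

theorem tBEB : T_BEB := Pool.Agent.H20.TOH.pf_BEB Pool.Agent.H10.TOH.BEA.pf
theorem tBEE : T_BEE := Pool.Agent.H38.TOH.BEE.pf
theorem tBEF : T_BEF := Pool.Agent.H79.TOH.pf_BEF Pool.Agent.H79.TOH.pf_BEC Pool.Agent.H5.TOH.pf_BED tBEE tBEB
theorem tXAA : T_XAA := Pool.Agent.H12.TOH.pf_XAA Pool.Agent.H67.TOH.pf_NRB tREP tPSI tBWS tCHT tDIF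
  Pool.Agent.H39.TOH.DII.pf tBEB tBEE tBEF
theorem tXBB : T_XBB := Pool.Agent.H38.TOH.XBB.pf Pool.Agent.H67.TOH.pf_NRA tREP tPSI tAWS tDIF
  Pool.Agent.H39.TOH.DII.pf Pool.Agent.H5.TOH.pf_AEB Pool.Agent.H5.TOH.pf_AEE Pool.Agent.H5.TOH.pf_AEF
theorem tXS1 : T_XS1 := Pool.Agent.H82.TOH.pf_XS1 Pool.Agent.H67.TOH.pf_NRB tREP tPSI tBWS tCHT tDIF tBEB tBEE tBEF
theorem tXS2 : T_XS2 := Pool.Agent.H49.TOH.pf_XS2 Pool.Agent.H67.TOH.pf_NRB tREP tPSI tBWS tCHT tSGE tBEB tBEE tBEF tORR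
theorem tXS3 : T_XS3 := Pool.Agent.H49.TOH.pf_XS3 Pool.Agent.H67.TOH.pf_NRB tREP tPSI tBWS tCHT tSGE tBEB tBEE tBEF tORR

/-! ## necessity -/

theorem tEQV : T_EQV := Pool.Agent.H1.TOH.pf_EQV tSYG
theorem tCYF : T_CYF := Pool.Agent.H32.TOH.pf_CYF tFLA
theorem tCYV : T_CYV := Pool.Agent.H32.TOH.pf_CYV tFLA
theorem tCLS : T_CLS := Pool.Agent.H35.TOH.pf_CLS tFLA tFLB tFLC tEQV
theorem tPAR2 : T_PAR2 := Pool.Agent.H42.TOH.pf_PAR tFLA tEQV tCLS tCYF tCYV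
theorem tSIN : T_SIN := Pool.Agent.H19.TOH.pf_SIN tFLA tFLC tEQV
theorem tSML : T_SML := Pool.Agent.H11.TOH.pf_SML
theorem tBAL : T_BAL := Pool.Agent.H34.TOH.pf_BAL tCTR
theorem tQFI : T_QFI := Pool.Agent.H32.TOH.pf_QFI tBAL
theorem tD2A : T_D2A := Pool.Agent.H11.TOH.pf_D2A tSYG tFLA tFLB tFLC tFLD tEQV tCYF
theorem tD0A : T_D0A := Pool.Agent.H10.TOH.D0A.pf tSYG tFLA tFLB tFLC tFLD tEQV tCYF tCYV
theorem tPLN : T_PLN := Pool.Agent.H35.TOH.PLN.pf_PLN tEXT tSPN tTRV tOAX tDET tCTR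
theorem tNET : T_NET := Pool.Agent.H79.TOH.pf_NET tD2A tPLN Pool.Agent.H1.TOH.Inv.pf_INV tSML tEXT tMKI tSPN tLOR
theorem tRFL : T_RFL := Pool.Agent.H94.TOH.pf_RFL tPLN tEXT tLOR tCTR
theorem tRFM : T_RFM := Pool.Agent.H39.TOH.RFM.pf tEXT tSYG tRFL
theorem tRFD : T_RFD := Pool.Agent.H20.TOH.R.pf_RFD tRFM Pool.Agent.H42.TOH.pf_SPV tBAL tMKI tLOR

/-! ## the classification of the odd case -/

theorem tANG : T_ANG := Pool.Agent.H12.TOH.pf_ANG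
theorem tPRP : T_PRP := Pool.Agent.H34.TOH.pf_PRP tLOR tCTR
theorem tRTR : T_RTR := Pool.Agent.H34.TOH.pf_RTR tANG Pool.Agent.H13.TOH.pf_DPT tPRP
theorem tEUC : T_EUC := Pool.Agent.H67.TOH.pf_EUC tLOR
theorem tSPH : T_SPH := Pool.Agent.H94.TOH.pf_SPH Pool.Agent.H48.TOH.pf_MDS (Pool.Agent.H11.TOH.pf_SPA tLOR)
  Pool.Agent.H1.TOH.Spb.pf_SPB
theorem tHSP : T_HSP := Pool.Agent.H48.TOH.pf_HSP tLOR tCTR
theorem tHYP : T_HYP := Pool.Agent.H48.TOH.pf_HYP tLOR Pool.Agent.H48.TOH.pf_MDH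
  (Pool.Agent.H48.TOH.pf_HC3 tLOR tHSP (Pool.Agent.H48.TOH.pf_HPA tLOR))
  (Pool.Agent.H48.TOH.pf_HC4 tLOR tHSP (Pool.Agent.H48.TOH.pf_HPB tLOR)) Pool.Agent.H48.TOH.pf_HJV
theorem tCLA : T_CLA := Pool.Agent.H39.TOH.CLA.pf tRTR tANG tORR tEUC tSPH tHYP Pool.Agent.H82.TOH.pf_KKA
  Pool.Agent.H79.TOH.pf_FVL Pool.Agent.H42.TOH.pf_FSY Pool.Agent.H16.TOH.TAA.pf Pool.Agent.H7.TOH.pf_TAB
  Pool.Agent.H16.TOH.TAC.pf

/-! ## the theorem -/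

theorem tNEC2 : T_NEC2 := Pool.Agent.H39.TO.nec2 tFLA tSIN tSML tQFI tCLS tPAR2 Pool.Agent.H42.TOH.pf_OOO
  tNEC tNET tD0A tRFD tCLA
theorem tEXI : T_EXI := Pool.Agent.H39.TO.exi tXAA tXBB tXS1 tXS2 tXS3

theorem main : Pool.Agent.H39.TO.Main := Pool.Agent.H39.TO.main_asm Pool.Agent.H83.CP.la Pool.Agent.H42.TOH.pf_LBT
  Pool.Agent.H11.TOH.pf_LCT Pool.Agent.H83.CP.LD.ld Pool.Agent.H42.TOH.pf_LET tNEC2 tEXI

end Pool.Agent.H39.TOH.Final
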